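import Mathlib
import Pool.Agent.Helper69.FdDefs
import Pool.Agent.Helper69.FdMain

set_option autoImplicit false

namespace Pool.Agent.Results.MP_c829d7_an.AllValues

open Pool.Agent.Helper69.Fd

/-- Over the real and over the complex numbers, the set of the flat dimensions of the Banach spaces
of infinite projective dimension is the whole of `{0, 1, 2, …, ∞}`. -/
theorem result (𝕜 : Type) [RCLike 𝕜] :
    {n : ℕ∞ | ∃ (X : Type) (_ : NormedAddCommGroup X) (_ : NormedSpace 𝕜 X)
      (_ : CompleteSpace X), pd 𝕜 X = ⊤ ∧ fd 𝕜 X = n} = Set.univ :=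
  all_values 𝕜

end Pool.Agent.Results.MP_c829d7_an.AllValues
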